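import Mathlib

/-! Squarefree numbers in the class of one have positive lower density. -/

set_option autoImplicit false

open scoped Classical
open Finset

namespace Pool.Agent.B6.WG

theorem card_dvd_le (N K r : ℕ) :
    (((Icc 1 K).filter fun k => r ∣ N * k + 1).card : ℝ) ≤ K * (r : ℝ)⁻¹ + 1 := by
  have h : ((Icc 1 K).filter fun k => r ∣ N * k + 1).card ≤ (range (K / r + 1)).card :=
    card_le_card_of_injOn (· / r) (fun k hk => mem_coe.2 (mem_range.2 (Nat.lt_succ_of_le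
      (Nat.div_le_div_right (mem_Icc.1 (mem_filter.1 hk).1).2)))) fun a ha b hb e => by
      have h1 := (mem_filter.1 ha).2
      have c : Nat.gcd r N = 1 := Nat.dvd_one.1 ((Nat.dvd_add_right
        ((Nat.gcd_dvd_right r N).mul_right a)).1 ((Nat.gcd_dvd_left r N).trans h1))
      have m : a ≡ b [MOD r] := Nat.ModEq.cancel_left_of_coprime c (Nat.ModEq.add_right_cancel' 1
        ((Nat.modEq_zero_iff_dvd.2 h1).trans (Nat.modEq_zero_iff_dvd.2 (mem_filter.1 hb).2).symm))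
      rw [← Nat.div_add_mod a r, ← Nat.div_add_mod b r, show a / r = b / r from e, m]
  rw [card_range] at h
  exact (Nat.cast_le.2 h).trans (by push_cast; exact add_le_add_left Nat.cast_div_le 1)

theorem sqf_dens' {M : ℕ} (hM : M ≠ 0) : ∃ c : ℝ, 0 < c ∧ ∃ X0 : ℕ, ∀ X ≥ X0,
    c * X ≤ (((Icc (2 : ℤ) X).filter fun d => Squarefree d ∧ (M : ℤ) ∣ d - 1).card : ℝ) := by
  refine ⟨(8 * M : ℝ)⁻¹, by positivity, (16 * M) ^ 2, fun X hX => ?_⟩
  obtain ⟨K, hK⟩ : ∃ K, K = (X - 1) / (2 * M) := ⟨_, rfl⟩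
  have s1 : 16 * M ≤ X.sqrt := Nat.le_sqrt'.2 hX
  have s2 := Nat.sqrt_le X
  have k1 : 2 * M * K ≤ X - 1 := hK ▸ Nat.mul_div_le _ _
  have k2 : X - 1 < 2 * M * (K + 1) := hK ▸ Nat.lt_mul_div_succ _ (by omega)
  have x0 : 0 < X := lt_of_lt_of_le (by positivity) hX
  have bd : ∀ k ∈ Icc 1 K, 2 ≤ 2 * M * k + 1 ∧ 2 * M * k + 1 ≤ X := fun k hk => by
    obtain ⟨a, b⟩ := mem_Icc.1 hk
    have := Nat.mul_le_mul_left (2 * M) b
    have := Nat.mul_pos (show 0 < 2 * M by omega) a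
    omega
  have a1 : ((Icc 1 K).filter fun k => Squarefree (2 * M * k + 1)).card ≤
      ((Icc (2 : ℤ) X).filter fun d => Squarefree d ∧ (M : ℤ) ∣ d - 1).card :=
    card_le_card_of_injOn (fun k => ((2 * M * k + 1 : ℕ) : ℤ)) (fun k hk => by
      obtain ⟨a, b⟩ := mem_filter.1 hk
      refine mem_coe.2 (mem_filter.2 ⟨mem_Icc.2 (by beta_reduce; exact_mod_cast bd k a),
        Int.squarefree_natCast.2 b, 2 * k, ?_⟩)
      push_cast
      ring) fun a _ b _ e =>
      Nat.eq_of_mul_eq_mul_left (show 0 < 2 * M by omega) (by simpa using Nat.cast_injective e)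
  have a2 : Icc 1 K ⊆ ((Icc 1 K).filter fun k => Squarefree (2 * M * k + 1)) ∪
      (Ioc 2 X.sqrt).biUnion fun n => (Icc 1 K).filter fun k => n ^ 2 ∣ 2 * M * k + 1 :=
    fun k hk => mem_union.2 <| or_iff_not_imp_left.2 fun h => by
      rw [mem_filter, and_iff_right hk, Nat.squarefree_iff_prime_squarefree] at h
      push Not at h
      obtain ⟨p, hp, d⟩ := h
      refine mem_biUnion.2 ⟨p, mem_Ioc.2 ⟨hp.two_le.lt_of_ne ?_,
        Nat.le_sqrt.2 ((Nat.le_of_dvd (by omega) d).trans (bd k hk).2)⟩,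
        mem_filter.2 ⟨hk, sq p ▸ d⟩⟩
      rintro rfl
      rw [mul_assoc] at d
      omega
  have a3 := (card_le_card a2).trans ((card_union_le _ _).trans (add_le_add a1 card_biUnion_le))
  rw [Nat.card_Icc, Nat.add_sub_cancel, ← Nat.cast_le (α := ℝ), Nat.cast_add, Nat.cast_sum] at a3
  have a4 := sum_le_sum fun n (_ : n ∈ Ioc 2 X.sqrt) => card_dvd_le (2 * M) K (n ^ 2)
  have a5 := sum_Ioc_inv_sq_le_sub (α := ℝ) two_ne_zero (show 2 ≤ X.sqrt by omega)
  have a6 : ((X.sqrt - 2 : ℕ) : ℝ) ≤ X.sqrt := Nat.cast_le.2 (Nat.sub_le _ _)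
  rw [sum_add_distrib, ← mul_sum, sum_const, Nat.card_Ioc, nsmul_eq_mul, mul_one] at a4
  push_cast at a4 a5
  have a7 := mul_le_mul_of_nonneg_left (a5.trans (sub_le_self _ (by positivity)))
    (Nat.cast_nonneg K)
  have a8 : (X : ℝ) + 8 * M * X.sqrt ≤ 4 * M * K := by
    have := Nat.mul_le_mul_right X.sqrt s1
    have := Nat.mul_le_mul_left M (show 1 ≤ X.sqrt by omega)
    exact_mod_cast (by nlinarith [Nat.sub_add_cancel x0] : X + 8 * M * X.sqrt ≤ 4 * M * K)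
  rw [inv_mul_le_iff₀ (by positivity)]
  have m0 : (0 : ℝ) ≤ M := Nat.cast_nonneg M
  nlinarith [mul_le_mul_of_nonneg_left (a3.trans (add_le_add_right (a4.trans
    (add_le_add a7 a6)) _)) m0]

end Pool.Agent.B6.WG
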